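import Pool.Agent.Lib.MP_ca56d1_nt.UR.Tate

/-! Reduction of the case of unit rank one to real quadratic and complex cubic fields. -/

set_option linter.unusedSectionVars false

namespace Pool.Agent.Stark.UR

open NumberField IsDedekindDomain StarkStmt AR
open scoped IsMulCommutative Classical

variable {K H : Type} [Field K] [NumberField K] [Field H] [NumberField H] [Algebra K H]
  [IsAbelianGalois K H]

theorem unr_of_split {P : InfinitePlace H} (h : Split K P) : P.IsUnramified K := by
  have h1 : Nat.card (MulAction.orbit (H ≃ₐ[K] H) P) = Module.finrank K H :=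
    (Nat.card_congr (Equiv.subtypeEquivRight fun Q =>
      InfinitePlace.mem_orbit_iff.trans eq_comm)).trans h
  have h2 := Nat.card_congr (MulAction.orbitProdStabilizerEquivGroup (H ≃ₐ[K] H) P)
  rw [Nat.card_prod, h1, IsGalois.card_aut_eq_finrank] at h2
  exact InfinitePlace.isUnramified_iff_card_stabilizer_eq_one.2
    (Nat.eq_of_mul_eq_mul_left Module.finrank_pos (h2.trans (mul_one _).symm))

theorem q1_of_stark (hK : Units.rank K = 1) {S : Finset (Pr K)} (hS : S.Nonempty)
    {P : InfinitePlace H} (h : Stark K S P) : Q1 K S P := by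
  obtain ⟨Z, ε, h1, h2, h3, h4, h5⟩ := h
  refine ⟨Z, ε, h1, ⟨h2, fun Q _ => h3.1 _, fun _ => h3, fun h => ?_⟩, h4, h5⟩
  have := hS.card_pos
  rw [Units.rank] at hK
  omega

theorem unit_rank_one
    (h2 : Module.finrank ℚ K = 2 → ∀ S : Finset (Pr K), S.Nonempty → UnrO H S →
      ∀ P : InfinitePlace H, P.IsReal → Stark K S P)
    (h3 : Module.finrank ℚ K = 3 → ∀ S : Finset (Pr K), S.Nonempty → UnrO H S →
      ∀ P : InfinitePlace H, (P.comap (algebraMap K H)).IsComplex → Stark K S P)
    (hK : Units.rank K = 1) (S : Finset (Pr K)) (hU : UnrO H S) (P : InfinitePlace H)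
    (hP : Split K P) : Q1 K S P := by
  replace hP := unr_of_split hP
  obtain ⟨q, hne, hq⟩ := other hK (P.comap (algebraMap K H))
  obtain ⟨N, hN⟩ := hRec K H S hU
  have hr : ∀ φ : K →+* ℝ, RamR H φ → plc φ = q := fun φ h => (hq _).1 fun e =>
    ((gal K H).ramR_iff inferInstance φ).1 h (e ▸ InfinitePlace.isUnramifiedIn_comap.2 hP)
  rcases S.eq_empty_or_nonempty with rfl | hS
  · refine q1_of_wray (N := N) hK hU (fun a ha => ?_) P hP
    by_cases h : PosR H a
    · exact hN a ha h
    · obtain ⟨φ, h4⟩ := not_forall.1 h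
      obtain ⟨h4, h5⟩ := Classical.not_imp.1 h4
      have h6 := hN (-a) ⟨neg_ne_zero.2 ha.1, fun q hq => absurd hq (Finset.notMem_empty q)⟩
        fun ψ hψ => by
          rw [plc_injective ((hr ψ hψ).trans (hr φ h4).symm), map_neg, neg_pos]
          exact lt_of_le_of_ne (not_lt.1 h5) (by simpa using ha.1)
      rwa [show dv (-a) = dv a from Finsupp.ext fun q => by simp [og]] at h6
  rcases q.isReal_or_isComplex with h4 | h4
  swap
  · exact q1_of_wray hK hU (fun a ha => hN a ha fun φ hφ => absurd (hr φ hφ ▸ plc_isReal φ)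
      (InfinitePlace.not_isReal_iff_isComplex.2 h4)) P hP
  have h5 : Module.finrank ℚ K = (P.comap (algebraMap K H)).mult + 1 := by
    rw [← InfinitePlace.sum_mult_eq, ← h4.mult_eq_one, ← Finset.sum_pair hne.symm]
    refine Finset.sum_congr (Finset.ext fun w => ?_) fun _ _ => rfl
    simp only [Finset.mem_univ, Finset.mem_insert, Finset.mem_singleton, ← hq, em]
  refine q1_of_stark hK hS ?_
  rcases (P.comap (algebraMap K H)).isReal_or_isComplex with h6 | h6
  · refine h2 (by rw [h5, h6.mult_eq_one]) S hS hU P ?_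
    exact (InfinitePlace.isUnramified_iff.1 hP).resolve_right
      (InfinitePlace.not_isComplex_iff_isReal.2 h6)
  · exact h3 (by rw [h5, h6.mult_eq_two]) S hS hU P h6

end Pool.Agent.Stark.UR
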