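import Pool.Agent.Lib.MP_ca56d1_nt.AR.ThW

/-! Continuation of the Mellin transform of a theta series with periodic weight. -/

namespace Pool.Agent.Stark.UR

open Complex MeasureTheory ThetaAux Set AR AR.ThWAux Filter Topology Asymptotics

theorem top {f : ℝ → ℂ} {C δ : ℝ} (hδ : 0 < δ)
    (h : ∀ x : ℝ, 1 ≤ x → ‖f x‖ ≤ C * Real.exp (-δ * x ^ 2)) (ρ : ℝ) : f =O[atTop] (· ^ ρ) := by
  have h1 := (rexp_neg_quadratic_isLittleO_rpow_atTop (a := -δ) (by linarith) 0 ρ).isBigO
  refine IsBigO.trans (IsBigO.of_bound C ?_) h1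
  filter_upwards [eventually_ge_atTop 1] with x hx
  rw [zero_mul, add_zero, Real.norm_of_nonneg (Real.exp_pos _).le]
  exact h x hx

theorem cont (F : ℝ → ℂ) (hF : Continuous F) (a μ : ℂ) {n : ℕ} (hn : 0 < n) {C δ C' δ' : ℝ}
    (hδ : 0 < δ) (hδ' : 0 < δ')
    (h1 : ∀ τ : ℝ, 0 ≤ τ → ‖F τ‖ ≤ C * Real.exp (-δ * Real.exp τ ^ 2))
    (h2 : ∀ τ : ℝ, 0 ≤ τ → ‖a + F (-τ) - μ * (Real.exp (n * τ) : ℝ)‖ ≤
      Real.exp (n * τ) * (C' * Real.exp (-δ' * Real.exp τ ^ 2))) :
    ∃ h : ℂ → ℂ, MeromorphicOn h univ ∧ AnalyticAt ℂ h 0 ∧ h 0 = -a / n ∧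
      ∀ s : ℂ, 1 < s.re → s * ∫ τ : ℝ, F τ * cexp (n * s * τ) = h s := by
  have hl : ContinuousOn Real.log (Ioi 0) := Real.continuousOn_log.mono fun x hx => ne_of_gt hx
  let P : WeakFEPair ℂ :=
    { f := fun x => a + F (Real.log x)
      g := fun x => ((x : ℂ) ^ n)⁻¹ * (a + F (-Real.log x))
      k := n
      ε := 1
      f₀ := a
      g₀ := μ
      hf_int := (continuousOn_const.add (hF.comp_continuousOn hl)).locallyIntegrableOn
        measurableSet_Ioi
      hg_int := (((continuous_ofReal.pow n).continuousOn.inv₀ fun x hx =>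
        pow_ne_zero _ (ofReal_ne_zero.2 (ne_of_gt hx))).mul
        (continuousOn_const.add (hF.comp_continuousOn hl.neg))).locallyIntegrableOn
        measurableSet_Ioi
      hk := by exact_mod_cast hn
      hε := one_ne_zero
      h_feq := fun x hx => by
        have h0 : (x : ℂ) ^ n ≠ 0 := pow_ne_zero _ (ofReal_ne_zero.2 (ne_of_gt hx))
        rw [one_div, Real.log_inv, Real.rpow_natCast, ofReal_pow, smul_eq_mul, one_mul,
          mul_inv_cancel_left₀ h0]
      hf_top := top hδ fun x hx => by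
        have h3 := h1 _ (Real.log_nonneg hx)
        rwa [Real.exp_log (by linarith), ← add_sub_cancel_left a (F _)] at h3
      hg_top := top (C := C') hδ' fun x hx => by
        have h3 := h2 _ (Real.log_nonneg hx)
        have h4 : 0 < x := by linarith
        have h0 : (x : ℂ) ^ n ≠ 0 := pow_ne_zero _ (ofReal_ne_zero.2 h4.ne')
        rw [Real.exp_nat_mul, Real.exp_log h4, ofReal_pow] at h3
        have h5 : ((x : ℂ) ^ n)⁻¹ * (a + F (-Real.log x)) - μ =
            ((x : ℂ) ^ n)⁻¹ * (a + F (-Real.log x) - μ * (x : ℂ) ^ n) := by field_simp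
        rw [h5, norm_mul, norm_inv, norm_pow, norm_real, Real.norm_of_nonneg h4.le,
          inv_mul_le_iff₀ (pow_pos h4 n)]
        exact h3 }
  have hn0 : (n : ℂ) ≠ 0 := Nat.cast_ne_zero.2 hn.ne'
  have hΛ : ∀ z : ℂ, AnalyticAt ℂ (fun s : ℂ => s * P.Λ₀ (n * s) - a / n) z := fun z => by
    refine Differentiable.analyticAt ?_ z
    have := P.differentiable_Λ₀
    fun_prop
  have hnum : ∀ z : ℂ, AnalyticAt ℂ (fun s : ℂ => s * μ) z := fun z => by fun_prop
  have hden : ∀ z : ℂ, AnalyticAt ℂ (fun s : ℂ => n - n * s) z := fun z => by fun_prop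
  refine ⟨fun s => (s * P.Λ₀ (n * s) - a / n) - s * μ / (n - n * s), fun z _ =>
    (hΛ z).meromorphicAt.sub ((hnum z).meromorphicAt.div (hden z).meromorphicAt),
    (hΛ 0).sub ((hnum 0).div (hden 0) (by simpa using hn0)), by simp [neg_div], fun s hs => ?_⟩
  have hk : (P.k : ℂ) = n := ofReal_natCast _
  have hkre : P.k < ((n : ℂ) * s).re := by
    have h3 : (0 : ℝ) < n := by exact_mod_cast hn
    have h4 : ((n : ℂ) * s).re = n * s.re := by rw [← ofReal_natCast, re_ofReal_mul]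
    have h5 : P.k = n := rfl
    rw [h4, h5]
    nlinarith
  have hm := (P.hasMellin hkre).2
  have hf : (fun x => P.f x - P.f₀) = fun x => F (Real.log x) := by
    funext x
    exact add_sub_cancel_left _ _
  rw [hf, mellin_log F] at hm
  rw [hm, WeakFEPair.Λ, hk]
  have hs0 : s ≠ 0 := by
    rintro rfl
    simp at hs
    linarith
  have e0 : P.f₀ = a := rfl
  have e1 : P.g₀ = μ := rfl
  have e2 : P.ε = 1 := rfl
  rw [e0, e1, e2, smul_eq_mul, smul_eq_mul]
  field_simp

variable {ι : Type} [Fintype ι] [DecidableEq ι]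

theorem thw_est {B : Matrix ι ι ℝ} (hB : B.det ≠ 0) {ω : (ι → ℤ) → ℂ} (hω : ∀ k, ‖ω k‖ ≤ 1)
    {d : ℕ} (hd : d ≠ 0) (hp : ∀ k j, ω (k + d • j) = ω k) (a : ι → ℝ) :
    ‖ω 0 + thw B ω a - (∑ c : ι → Fin d, ω fun i => ((c i : ℕ) : ℤ)) *
        ((1 / |((d : ℝ) • B).det| * Real.exp (-∑ i, a i) : ℝ) : ℂ)‖ ≤
      Fintype.card (ι → Fin d) * (1 / |((d : ℝ) • B).det| * Real.exp (-∑ i, a i) *
        th (((d : ℝ) • B)⁻¹).transpose (-a)) := by
  have : NeZero d := ⟨hd⟩
  have hB' : ((d : ℝ) • B).det ≠ 0 := by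
    rw [Matrix.det_smul]
    exact mul_ne_zero (pow_ne_zero _ (Nat.cast_ne_zero.2 hd)) hB
  have hs : Summable fun k => ω k * (tm B a k : ℝ) :=
    .of_norm_bounded (summable_tm hB a) (norm_term B hω a)
  have h1 : thw B ω a = (∑' k, ω k * (tm B a k : ℝ)) - ω 0 := by
    have h := hs.sum_add_tsum_subtype_compl {0}
    rw [Finset.sum_singleton, tm_zero, ofReal_one, mul_one] at h
    rw [← h, add_sub_cancel_left, thw]
    exact (Equiv.subtypeEquivRight (p := fun k : ι → ℤ => k ≠ 0)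
      (q := fun k : ι → ℤ => k ∉ ({0} : Finset (ι → ℤ))) (fun k => by simp)).tsum_eq
        (fun k => ω k.1 * (tm B a k.1 : ℝ))
  let e : (ι → Fin d) × (ι → ℤ) ≃ (ι → ℤ) :=
    ((Equiv.prodComm _ _).trans (Equiv.arrowProdEquivProdArrow ι (fun _ => ℤ) fun _ => Fin d).symm).trans
      (Equiv.piCongrRight fun _ => (Int.divModEquiv d).symm)
  have he : ∀ c j, e (c, j) = (fun i => ((c i : ℕ) : ℤ)) + d • j := fun c j => by
    funext i
    simp [e, Int.divModEquiv, Equiv.arrowProdEquivProdArrow]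
    ring
  have h2 : ∑' k, ω k * (tm B a k : ℝ) = ∑ c : ι → Fin d, (ω fun i => ((c i : ℕ) : ℤ)) *
      ∑' j : ι → ℤ, cexp (-Real.pi * ∑ i, ((Real.exp (2 * a i) : ℝ) : ℂ) *
        ((lpt ((d : ℝ) • B) j i + lpt B (fun i => ((c i : ℕ) : ℤ)) i : ℝ) : ℂ) ^ 2) := by
    have hs' : Summable fun p => ω (e p) * (tm B a (e p) : ℝ) := e.summable_iff.2 hs
    rw [← e.tsum_eq, hs'.tsum_prod, tsum_fintype]
    refine Finset.sum_congr rfl fun c _ => ?_
    rw [← tsum_mul_left]
    refine tsum_congr fun j => ?_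
    rw [he, hp, tm_cast]
    congr 3
    refine Finset.sum_congr rfl fun i _ => ?_
    congr 3
    simp only [lpt, Matrix.mulVec, dotProduct, Pi.add_apply, Pi.smul_apply, Matrix.smul_apply,
      Pi.zero_apply, add_zero, smul_eq_mul, ← Finset.sum_add_distrib]
    refine Finset.sum_congr rfl fun x _ => ?_
    rw [nsmul_eq_mul]
    push_cast
    ring
  rw [h1, add_sub_cancel, h2, Finset.sum_mul, ← Finset.sum_sub_distrib, ← nsmul_eq_mul,
    ← Finset.card_univ, ← Finset.sum_const]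
  refine norm_sum_le_of_le _ fun c _ => ?_
  rw [← mul_sub, norm_mul]
  exact (mul_le_of_le_one_left (norm_nonneg _) (hω _)).trans (coset hB' a _)

theorem mellinW [Nonempty ι] {κ : Type} {r : ℕ} (B : Matrix ι ι ℝ) (pl : ι → κ)
    (l : Fin r → κ → ℝ) (ω : (ι → ℤ) → ℂ) (d : ℕ) (hB : B.det ≠ 0)
    (hl : ∀ j, ∑ i, l j (pl i) = 0) (hd : d ≠ 0) (hω : ∀ k, ‖ω k‖ ≤ 1)
    (hp : ∀ k j, ω (k + d • j) = ω k) :
    ∃ h : ℂ → ℂ, MeromorphicOn h univ ∧ AnalyticAt ℂ h 0 ∧ h 0 = -ω 0 / Fintype.card ι ∧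
      ∀ s : ℂ, 1 < s.re →
        s * ∫ τ : ℝ, fthw B pl l ω τ * cexp ((Fintype.card ι : ℂ) * s * τ) = h s := by
  have hB' : ((d : ℝ) • B).det ≠ 0 := by
    rw [Matrix.det_smul]
    exact mul_ne_zero (pow_ne_zero _ (Nat.cast_ne_zero.2 hd)) hB
  set L := ∑ i, ∑ j, |l j (pl i)| with hL
  set n := Fintype.card ι with hn
  obtain ⟨C1, δ1, hδ1, h1⟩ := th_decay (det_inv_ne hB') L
  obtain ⟨C2, δ2, hδ2, h2⟩ := th_decay hB L
  have hc : ∀ τ : ℝ, Continuous fun t : Fin r → ℝ =>
      thw B ω fun i => ∑ j, t j * l j (pl i) + τ := fun τ =>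
    (continuous_thw hB hω).comp (by fun_prop)
  have hF : Continuous (fthw B pl l ω) := by
    rw [funext (fthw_eq B pl l ω)]
    exact continuous_parametric_integral_of_continuous
      (f := fun (τ : ℝ) (t : Fin r → ℝ) => thw B ω fun i => ∑ j, t j * l j (pl i) + τ)
      ((continuous_thw hB hω).comp (by fun_prop)) isCompact_Icc
  set M : ℂ := ∑ c : ι → Fin d, ω fun i => ((c i : ℕ) : ℤ) with hM
  set D : ℝ := 1 / |((d : ℝ) • B).det| with hD
  have hD0 : 0 ≤ D := by positivity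
  refine cont (fthw B pl l ω) hF (ω 0) (M * D) Fintype.card_pos (C := C2)
    (C' := Fintype.card (ι → Fin d) * (D * C1)) hδ2 hδ1 (fun τ hτ => ?_) fun τ hτ => ?_
  · rw [fthw_eq]
    refine (norm_setIntegral_le_of_norm_le_const isCompact_Icc.measure_lt_top
      fun t ht => ?_).trans (by rw [vol_Icc, mul_one])
    refine (norm_thw hB hω _).trans (h2 τ hτ _ fun i => ?_)
    have := (abs_le.1 (lin_bd pl l ht i)).1
    linarith
  · have h3 : ω 0 + fthw B pl l ω (-τ) - (M * D) * (Real.exp (n * τ) : ℝ) =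
        ∫ t in Icc (0 : Fin r → ℝ) 1, (ω 0 + (thw B ω fun i => ∑ j, t j * l j (pl i) + -τ) -
          M * ((D * Real.exp (n * τ) : ℝ) : ℂ)) := by
      have hc' : Continuous fun t : Fin r → ℝ =>
          ω 0 + thw B ω fun i => ∑ j, t j * l j (pl i) + -τ := continuous_const.add (hc _)
      rw [integral_sub (hc'.continuousOn.integrableOn_compact isCompact_Icc)
        (continuous_const.continuousOn.integrableOn_compact isCompact_Icc),
        integral_add (continuous_const.continuousOn.integrableOn_compact isCompact_Icc)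
        ((hc _).continuousOn.integrableOn_compact isCompact_Icc), fthw_eq, setIntegral_const,
        setIntegral_const, vol_Icc, one_smul, one_smul, ofReal_mul, mul_assoc]
    rw [h3]
    refine (norm_setIntegral_le_of_norm_le_const isCompact_Icc.measure_lt_top fun t ht => ?_).trans
      (by rw [vol_Icc, mul_one])
    have h4 : -∑ i, (∑ j, t j * l j (pl i) + -τ) = n * τ := by
      rw [Finset.sum_add_distrib, Finset.sum_comm]
      simp_rw [← Finset.mul_sum, hl]
      simp [hn]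
    have h5 := thw_est hB hω hd hp fun i => ∑ j, t j * l j (pl i) + -τ
    rw [h4] at h5
    refine h5.trans ?_
    have h6 := h1 τ hτ (-fun i => ∑ j, t j * l j (pl i) + -τ) fun i => by
      have := (abs_le.1 (lin_bd pl l ht i)).2
      simp only [Pi.neg_apply]
      linarith
    have h7 := mul_le_mul_of_nonneg_left h6
      (show 0 ≤ (Fintype.card (ι → Fin d) : ℝ) * (D * Real.exp (n * τ)) by positivity)
    refine le_of_eq_of_le ?_ (h7.trans (le_of_eq ?_)) <;> ring

end Pool.Agent.Stark.UR
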