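import Pool.Agent.Lib.MP_ca56d1_nt.UR.MW
import Pool.Agent.Lib.MP_ca56d1_nt.AR.UnfW
import Pool.Agent.Lib.MP_ca56d1_nt.AR.Prin

/-! Continuation of a Dirichlet series over principal ideals with periodic coefficients. -/

namespace Pool.Agent.Stark.UR

open NumberField AR AR.PrinAux ZetaZeroAux Complex NumberField.InfinitePlace
  NumberField.mixedEmbedding
open scoped Classical

theorem prinW {F : Type} [Field F] [NumberField F] (d : ℕ) (W : Ideal (𝓞 F) → ℂ) (w : 𝓞 F → ℂ)
    (hd : d ≠ 0) (hW : ∀ x, x ≠ 0 → W (Ideal.span {x}) = w x)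
    (hW0 : ∀ I, ¬ I.IsPrincipal → W I = 0) (hw : ∀ x, ‖w x‖ ≤ 1)
    (hp : ∀ x y, w (x + d * y) = w x) :
    ∃ g : ℂ → ℂ, MeromorphicOn g Set.univ ∧ AnalyticAt ℂ g 0 ∧
      g 0 = -(w 0 * ((Units.regulator F / Units.torsionOrder F : ℝ) : ℂ)) ∧
      ∀ s : ℂ, 1 < s.re →
        ∑' I : {I : Ideal (𝓞 F) // I ≠ ⊥}, W I.1 * (Ideal.absNorm I.1 : ℂ) ^ (-s) =
          s ^ Units.rank F * g s := by
  obtain ⟨e, he⟩ := exists_J F
  have hn : (Module.finrank ℚ F : ℝ) ≠ 0 := Nat.cast_ne_zero.2 Module.finrank_pos.ne'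
  have ht : (Units.torsionOrder F : ℂ) ≠ 0 := Nat.cast_ne_zero.2 (Units.torsionOrder_ne_zero F)
  have hπ : (Real.pi : ℂ) ≠ 0 := ofReal_ne_zero.2 Real.pi_ne_zero
  obtain ⟨B, v, hB, hv⟩ := exists_coord F
  have hu := fun h => unfold unfW e _ rfl h B v hv
  generalize |(_ : ℝ)| = J at he hu
  have hJ : J ≠ 0 := fun h => by
    rw [h, zero_mul] at he
    exact mul_ne_zero hn (Units.regulator_ne_zero F) he.symm
  have hJ' : (J : ℂ) ≠ 0 := ofReal_ne_zero.2 hJ
  have : Nonempty (index F) := Fintype.card_pos_iff.1 (by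
    rw [card_index]; exact Module.finrank_pos)
  obtain ⟨h, h1, h2, h3, h4⟩ := mellinW B (pl F) (fun j u => Real.log (u (Units.fundSystem F j)))
    (fun k => w (v.symm k)) d hB
    (fun j => (sum_pl F fun u => Real.log (u (Units.fundSystem F j))).trans
      (Units.sum_mult_mul_log _)) hd (fun _ => hw _) fun k j => by
      rw [map_add, map_nsmul, nsmul_eq_mul, hp]
  rw [map_zero, card_index] at h3
  let E : ℂ → ℂ := fun s => J / Units.torsionOrder F *
    ∏ w : InfinitePlace F, (mult w / Real.pi * (Gammaℝ (mult w * s + 2))⁻¹)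
  have hE : ∀ s, AnalyticAt ℂ E s := Differentiable.analyticAt
    ((Differentiable.fun_finsetProd fun w _ =>
      (differentiable_Gammaℝ_inv.comp (by fun_prop)).const_mul _).const_mul _)
  refine ⟨fun s => E s * h s, fun s hs => (hE s).meromorphicAt.mul (h1 s hs), (hE 0).mul h2, ?_,
    fun s hs => ?_⟩
  · have g2 : Gammaℝ 2 = (Real.pi : ℂ)⁻¹ := by
      rw [Gammaℝ_def]; norm_num [cpow_neg_one]
    have he' : (J : ℂ) * ∏ w : InfinitePlace F, (mult w : ℂ)
        = Module.finrank ℚ F * Units.regulator F := by exact_mod_cast he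
    have hn' : (Module.finrank ℚ F : ℂ) ≠ 0 := by exact_mod_cast hn
    simp only [E, h3, mul_zero, zero_add, g2, inv_inv, div_mul_cancel₀ _ hπ]
    push_cast
    field_simp
    linear_combination (-w 0) * he'
  · have hs0 : s ≠ 0 := fun h => by rw [h, zero_re] at hs; linarith
    have e1 : (∏ w : InfinitePlace F, (mult w / Real.pi * (Gammaℝ (mult w * s + 2))⁻¹))
        * (∏ w : InfinitePlace F, Gammaℝ (mult w * s) / 2) * (s ^ Units.rank F * s) = 1 := by
      rw [← pow_succ, Units.rank, Nat.sub_add_cancel Fintype.card_pos, ← Finset.card_univ,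
        ← Finset.prod_const, ← Finset.prod_mul_distrib, ← Finset.prod_mul_distrib]
      refine Finset.prod_eq_one fun w _ => ?_
      have m0 : (mult w : ℂ) ≠ 0 := Nat.cast_ne_zero.2 mult_ne_zero
      have g0 : Gammaℝ (mult w * s) ≠ 0 := Gammaℝ_ne_zero_of_re_pos (by
        have : (0 : ℝ) < mult w := Nat.cast_pos.2 mult_pos
        simp only [mul_re, natCast_re, natCast_im, zero_mul, sub_zero]
        positivity)
      rw [Gammaℝ_add_two (mul_ne_zero m0 hs0)]
      field_simp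
    beta_reduce
    rw [← h4 s hs, hu hJ W w hW hW0 hw s hs]
    simp only [E]
    generalize ∑' I : {I : Ideal (𝓞 F) // I ≠ ⊥}, W I.1 * (Ideal.absNorm I.1 : ℂ) ^ (-s) = Z
    generalize ∏ w : InfinitePlace F, Gammaℝ (mult w * s) / 2 = G at e1 ⊢
    generalize ∏ w : InfinitePlace F, (mult w / Real.pi * (Gammaℝ (mult w * s + 2))⁻¹) = P at e1 ⊢
    field_simp
    linear_combination (-Z) * e1

end Pool.Agent.Stark.UR
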