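import Pool.Agent.Lib.MP_ca56d1_nt.UR.PW
import Pool.Agent.Lib.MP_ca56d1_nt.AR.All

/-! The zeta functions of Artin classes at zero when the Artin map kills a wide ray. -/

set_option linter.unusedSectionVars false

namespace Pool.Agent.Stark.UR

open NumberField IsDedekindDomain StarkStmt AR AR.LBdAux AR.RecAux
open scoped IsMulCommutative Classical nonZeroDivisors

variable {K H : Type} [Field K] [NumberField K] [Field H] [NumberField H] [Algebra K H]
  [IsAbelianGalois K H] {S : Finset (Pr K)} {N : ℕ}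

theorem cop_zero : Cop S 0 ↔ S = ∅ :=
  ⟨fun h => Finset.eq_empty_of_forall_notMem fun q hq => h q hq (zero_mem _),
    fun h q hq => by simp [h] at hq⟩

theorem triv (hR : WRay S N (fr K H)) (h0 : Cop S 0) (x : 𝓞 K) :
    artin K H (Ideal.span {x}) = 1 := by
  by_cases hx : x = 0
  · rw [hx, Ideal.span_singleton_zero, artin_eq, ← Ideal.zero_eq_bot,
      UniqueFactorizationMonoid.normalizedFactors_zero]
    rfl
  · rw [artin_span hx, hR _ ⟨by simpa using hx, fun q hq => (h0 q hq (zero_mem _)).elim⟩]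

theorem cop_add {x y : 𝓞 K} (hy : y ∈ md S N) : Cop S (x + y) ↔ Cop S x :=
  forall₂_congr fun _ hq => not_congr (Submodule.add_mem_iff_left _ (md_le' hq hy))

theorem art_add (hR : WRay S N (fr K H)) {x y : 𝓞 K} (h : Cop S x) (hy : y ∈ md S N) :
    artin K H (Ideal.span {x + y}) = artin K H (Ideal.span {x}) := by
  by_cases hx : x = 0
  · rw [triv hR (hx ▸ h), triv hR (hx ▸ h)]
  by_cases hxy : x + y = 0
  · rw [triv hR (hxy ▸ (cop_add hy).2 h), triv hR (hxy ▸ (cop_add hy).2 h)]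
  have hx' : (x : K) ≠ 0 := by simpa using hx
  have hxy' : ((x + y : 𝓞 K) : K) ≠ 0 := fun h => hxy (RingOfIntegers.coe_eq_zero_iff.1 h)
  have h2 : Ray S N (((x + y : 𝓞 K) : K) / x) := by
    refine ⟨div_ne_zero hxy' hx', fun q hq => ?_⟩
    have h3 : ((x + y : 𝓞 K) : K) / x - 1 = (y : K) / x := by
      push_cast
      field_simp
      ring
    have h4 : og q (x : K) = 0 :=
      le_antisymm (not_lt.1 fun h5 => h q hq ((og_pos_iff q hx).1 h5)) (og_nonneg q x)
    rw [h3]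
    refine ComplAux.pw_div hx' ?_
    rw [show ord (q.valuation K) (x : K) = 0 from h4, zero_add]
    exact_mod_cast (ComplAux.int_mem_pw q y (N + 1)).2 (md_le hq hy)
  have h5 := hR _ h2
  rw [div_eq_mul_inv, dv_mul hxy' (inv_ne_zero hx'), dv_inv, ev_add, ev_neg,
    mul_inv_eq_one] at h5
  rw [artin_span hx, artin_span hxy, h5]

/-- The coefficients on principal multiples of `𝔟`. -/
noncomputable def WW (S : Finset (Pr K)) (t : H ≃ₐ[K] H) (𝔟 J : Ideal (𝓞 K)) : ℂ :=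
  if J.IsPrincipal ∧ 𝔟 ∣ J ∧ PrimeTo S J ∧ artin K H J = t then 1 else 0

theorem class_sum (g : H ≃ₐ[K] H) {𝔟 : Ideal (𝓞 K)} (hb : PrimeTo S 𝔟) (s : ℂ) :
    (∑' I : {I : Ideal (𝓞 K) // PrimeTo S I ∧ artin K H I = g},
      if LBdAux.cl I.1 * LBdAux.cl 𝔟 = 1 then (Ideal.absNorm I.1 : ℂ) ^ (-s) else 0) =
    (Ideal.absNorm 𝔟 : ℂ) ^ s * ∑' J : {I : Ideal (𝓞 K) // I ≠ ⊥},
      WW S (g * artin K H 𝔟) 𝔟 J.1 * (Ideal.absNorm J.1 : ℂ) ^ (-s) := by
  let f : {I : Ideal (𝓞 K) // PrimeTo S I ∧ artin K H I = g} → {I : Ideal (𝓞 K) // I ≠ ⊥} :=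
    fun I => ⟨I.1 * 𝔟, mul_ne_zero I.2.1.1 hb.1⟩
  have hf : Function.Injective f := fun I J h =>
    Subtype.ext (mul_right_cancel₀ hb.1 (congrArg Subtype.val h))
  rw [← hf.tsum_eq, ← tsum_mul_left]
  · refine tsum_congr fun I => ?_
    have h1 := pt_mul.2 ⟨I.2.1, hb⟩
    have h3 : (Ideal.absNorm 𝔟 : ℂ) ≠ 0 := by
      exact_mod_cast fun h => hb.1 (Ideal.absNorm_eq_zero_iff.1 h)
    have h4 : (Ideal.absNorm 𝔟 : ℂ) ^ s ≠ 0 := by simp [h3]
    simp only [f, WW, ← LBdAux.cl_mul I.2.1.1 hb.1, LBdAux.cl_eq_one h1.1, h1, dvd_mul_left,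
      artin_mul I.2.1.1 hb.1, I.2.2, and_true]
    split_ifs
    · rw [map_mul, Nat.cast_mul, Complex.natCast_mul_natCast_cpow,
        Complex.cpow_neg (Ideal.absNorm 𝔟 : ℂ)]
      field_simp
    · simp
  · intro J hJ
    have h1 : J.1.IsPrincipal ∧ 𝔟 ∣ J.1 ∧ PrimeTo S J.1 ∧ artin K H J.1 = g * artin K H 𝔟 := by
      by_contra h
      exact hJ (by simp only [WW, if_neg h, zero_mul])
    obtain ⟨-, ⟨I, hI⟩, h2, h3⟩ := h1
    have h4 := (pt_mul.1 (hI ▸ h2)).2
    rw [hI, artin_mul hb.1 h4.1, mul_comm] at h3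
    exact ⟨⟨I, h4, mul_right_cancel h3⟩, Subtype.ext ((mul_comm _ _).trans hI.symm)⟩

theorem pz (hR : WRay S N (fr K H)) {𝔟 : ClassGroup (𝓞 K) → Ideal (𝓞 K)}
    (hb : ∀ k, PrimeTo S (𝔟 k) ∧ LBdAux.cl (𝔟 k) = k) (g : H ≃ₐ[K] H) :
    ∃ G : ℂ → ℂ, MeromorphicOn G Set.univ ∧ AnalyticAt ℂ G 0 ∧
      G 0 = -((∑ k, if S = ∅ ∧ g * artin K H (𝔟 k) = 1 then 1 else 0 : ℕ) *
        ((Units.regulator K / Units.torsionOrder K : ℝ) : ℂ)) ∧
      ∀ s : ℂ, 1 < s.re → pzeta K H S g s = s ^ Units.rank K * G s := by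
  obtain ⟨d, hd0, hd1, hd2⟩ := exists_d (md_ne (S := S) (N := N)) fun k => (hb k).1.1
  choose G h1 h2 h3 h4 using fun k => prinW d (WW S (g * artin K H (𝔟 k)) (𝔟 k))
    (fun x => if x ∈ 𝔟 k ∧ Cop S x ∧ artin K H (Ideal.span {x}) = g * artin K H (𝔟 k) then 1
      else 0) hd0
    (fun x hx => by
      have : (Ideal.span {x}).IsPrincipal := ⟨x, rfl⟩
      simp only [WW, this, true_and, Ideal.dvd_span_singleton, pt_span hx])
    (fun I hI => by simp only [WW, hI, false_and, if_false])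
    (fun x => by split_ifs <;> simp)
    (fun x y => by
      have h := Ideal.mul_mem_right y _ hd1
      refine if_congr (and_congr (Submodule.add_mem_iff_left _
        (Ideal.mul_mem_right y _ (hd2 k))) ?_) rfl rfl
      rw [cop_add h]
      exact and_congr_right fun h' => by rw [art_add hR h' h])
  have hE : ∀ k s, AnalyticAt ℂ (fun s : ℂ => (Ideal.absNorm (𝔟 k) : ℂ) ^ s) s := fun k =>
    Differentiable.analyticAt (differentiable_id.const_cpow (Or.inl (Nat.cast_ne_zero.2 fun h =>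
      (hb k).1.1 (Ideal.absNorm_eq_zero_iff.1 h))))
  refine ⟨fun s => ∑ k, (Ideal.absNorm (𝔟 k) : ℂ) ^ s * G k s, MeromorphicOn.fun_sum fun k s hs =>
    (hE k s).meromorphicAt.mul (h1 k s hs), Finset.analyticAt_fun_sum _ fun k _ =>
      (hE k 0).mul (h2 k), ?_, fun s hs => ?_⟩
  · simp only [Complex.cpow_zero, one_mul, h3]
    rw [Finset.sum_neg_distrib, ← Finset.sum_mul, Nat.cast_sum]
    congr 2
    refine Finset.sum_congr rfl fun k _ => ?_
    rw [Nat.cast_ite, Nat.cast_one, Nat.cast_zero]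
    refine if_congr ?_ rfl rfl
    rw [and_iff_right (zero_mem _), ← cop_zero]
    exact and_congr_right fun h => by rw [triv hR h, eq_comm]
  · have e : ∀ k, s ^ Units.rank K * ((Ideal.absNorm (𝔟 k) : ℂ) ^ s * G k s) =
        ∑' I : {I : Ideal (𝓞 K) // PrimeTo S I ∧ artin K H I = g},
          if LBdAux.cl I.1 * k = 1 then (Ideal.absNorm I.1 : ℂ) ^ (-s) else 0 := fun k => by
      rw [mul_left_comm, ← h4 k s hs, ← class_sum g (hb k).1, (hb k).2]
    rw [Finset.mul_sum, Finset.sum_congr rfl fun k _ => e k, ← Summable.tsum_finsetSum]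
    · refine tsum_congr fun I => ?_
      simp only [mul_eq_one_iff_inv_eq, Finset.sum_ite_eq, Finset.mem_univ, if_true]
    · intro k _
      refine Summable.of_norm_bounded ((EulerAux.summable_all hs).subtype _) fun I => ?_
      split_ifs
      · exact le_rfl
      · rw [norm_zero]
        exact norm_nonneg _

theorem art_cl (hR : WRay ∅ N (fr K H)) {I J : Ideal (𝓞 K)} (hI : I ≠ ⊥) (hJ : J ≠ ⊥)
    (e : LBdAux.cl I = LBdAux.cl J) : artin K H I = artin K H J := by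
  obtain ⟨𝔟, hb, h1⟩ := exists_rep ∅ (LBdAux.cl J)⁻¹
  have key : ∀ I : Ideal (𝓞 K), I ≠ ⊥ → LBdAux.cl I = LBdAux.cl J → artin K H I * artin K H 𝔟 = 1 := by
    intro I hI e
    obtain ⟨β, hβ⟩ := (LBdAux.cl_eq_one (mul_ne_zero hI hb.1)).1
      (by rw [LBdAux.cl_mul hI hb.1, e, h1, mul_inv_cancel])
    have hβ' : I * 𝔟 = Ideal.span {β} := hβ
    rw [← artin_mul hI hb.1, hβ', triv hR (cop_zero.2 rfl)]
  exact mul_right_cancel ((key I hI e).trans (key J hJ rfl).symm)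

/-- The leading terms do not depend on `g`. -/
theorem pz_const (hU : UnrO H S) (hR : WRay S N (fr K H)) : ∃ m : ℕ, (S ≠ ∅ → m = 0) ∧
    ∀ g : H ≃ₐ[K] H, ∃ G : ℂ → ℂ, MeromorphicOn G Set.univ ∧ AnalyticAt ℂ G 0 ∧
      G 0 = -(m * ((Units.regulator K / Units.torsionOrder K : ℝ) : ℂ)) ∧
      ∀ s : ℂ, 1 < s.re → pzeta K H S g s = s ^ Units.rank K * G s := by
  choose 𝔟 hb using exists_rep S
  by_cases hS : S = ∅
  swap
  · refine ⟨0, fun _ => rfl, fun g => ?_⟩
    simpa only [hS, false_and, if_false, Finset.sum_const_zero] using pz hR hb g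
  subst hS
  let m : (H ≃ₐ[K] H) → ℕ := fun g => ∑ k, if g * artin K H (𝔟 k) = 1 then 1 else 0
  have h1 : ∀ (q : Pr K) g, m (g * fr K H q) = m g := fun q g => by
    refine Eq.trans (Finset.sum_congr rfl fun k _ => ?_) (Equiv.sum_comp
      (Equiv.mulLeft (LBdAux.cl q.asIdeal)) fun k => if g * artin K H (𝔟 k) = 1 then 1 else 0)
    have h2 := artin_pow (L := H) q 1
    rw [pow_one, pow_one] at h2
    have h3 := art_cl hR (hb (LBdAux.cl q.asIdeal * k)).1.1 (mul_ne_zero q.ne_bot (hb k).1.1)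
      (by rw [(hb _).2, LBdAux.cl_mul q.ne_bot (hb k).1.1, (hb k).2])
    rw [artin_mul q.ne_bot (hb k).1.1, h2] at h3
    simp only [Equiv.coe_mulLeft, h3, mul_assoc]
  have h2 : ∀ t ∈ Subgroup.closure
      (fr K H '' {q | q ∉ (∅ : Finset (Pr K)) ∧ fr K H q ∈ (⊤ : Subgroup _)}),
      ∀ g, m (g * t) = m g := fun t ht => by
    induction ht using Subgroup.closure_induction with
    | mem t ht =>
      obtain ⟨q, -, rfl⟩ := ht
      exact h1 q
    | one => exact fun g => by rw [mul_one]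
    | mul a b _ _ ha hb => exact fun g => by rw [← mul_assoc, hb, ha]
    | inv a _ ha => exact fun g => by rw [← ha, inv_mul_cancel_right]
  rw [(hSpl K H).gen inferInstance ∅ hU ⊤] at h2
  refine ⟨m 1, fun h => (h rfl).elim, fun g => ?_⟩
  rw [← h2 g (Subgroup.mem_top g) 1, one_mul]
  simpa only [true_and] using pz hR hb g

end Pool.Agent.Stark.UR
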