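import Pool.Agent.Lib.MP_ca56d1_nt.Stmt

/-! The statement of the rank one abelian Stark conjecture at an archimedean place. -/

namespace Pool.Agent.StarkStmt

open NumberField IsDedekindDomain

variable (K : Type*) {H : Type*} [Field K] [NumberField K] [Field H] [NumberField H] [Algebra K H]

/-- The place of `K` below `P` splits completely in `H`. -/
def Split (P : InfinitePlace H) : Prop :=
  Nat.card {Q : InfinitePlace H // Q.comap (algebraMap K H) = P.comap (algebraMap K H)} =
    Module.finrank K H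

/-- The group `U^T`, where `S` is the set of finite places of the set of places, and `T` is the
set of places without the place below `P`. -/
def UT (S : Finset (HeightOneSpectrum (𝓞 K))) (P : InfinitePlace H) (ε : H) : Prop :=
  ε ≠ 0 ∧ (∀ Q : HeightOneSpectrum (𝓞 H), Q.under (𝓞 K) ∉ S → FinitePlace.mk Q ε = 1) ∧
    (3 ≤ Fintype.card (InfinitePlace K) + S.card → UnitAway K P ε) ∧
    (Fintype.card (InfinitePlace K) + S.card = 2 →
      (∀ w w' : InfinitePlace H, w.comap (algebraMap K H) ≠ P.comap (algebraMap K H) →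
        w'.comap (algebraMap K H) ≠ P.comap (algebraMap K H) →
        w ε ^ w.mult = w' ε ^ w'.mult) ∧
      ∀ Q Q' : HeightOneSpectrum (𝓞 H), Q.under (𝓞 K) ∈ S → Q'.under (𝓞 K) ∈ S →
        FinitePlace.mk Q ε = FinitePlace.mk Q' ε)

/-- The conclusion of the conjecture for an archimedean place `P` of `H`. -/
def Q1 (S : Finset (HeightOneSpectrum (𝓞 K))) (P : InfinitePlace H) : Prop :=
  ∃ (Z : (H ≃ₐ[K] H) → ℂ → ℂ) (ε : H), (∀ g, IsCont (pzeta K H S g) (Z g)) ∧ UT K S P ε ∧
    (∀ g : H ≃ₐ[K] H, (Real.log (P (g ε) ^ P.mult) : ℂ) =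
      -(Units.torsionOrder H : ℂ) * deriv (Z g) 0) ∧
    AbelRoot K (Units.torsionOrder H) ε

end Pool.Agent.StarkStmt
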