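import Pool.Agent.Lib.MP_ca56d1_nt.UR.PZ
import Pool.Agent.Lib.MP_ca56d1_nt.UR.Stmt
import Pool.Agent.Lib.MP_ca56d1_nt.Kum

/-! The cases where the Stark unit lies in the base field. -/

set_option linter.unusedSectionVars false

namespace Pool.Agent.Stark.UR

open NumberField IsDedekindDomain StarkStmt AR
open scoped IsMulCommutative Classical

theorem deriv_one {G : ℂ → ℂ} (h : AnalyticAt ℂ G 0) : deriv (fun s => s ^ 1 * G s) 0 = G 0 := by
  have := ((hasDerivAt_id (0 : ℂ)).fun_mul h.differentiableAt.hasDerivAt).deriv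
  simpa using this

theorem root_mem (F : Type) [Field F] [NumberField F] {Ω : Type} [Field Ω] [Algebra F Ω] {x : Ω}
    (h : x ^ Units.torsionOrder F = 1) : ∃ y : F, algebraMap F Ω y = x := by
  obtain ⟨ζ, h1, -⟩ := exists_prim F
  have : NeZero (Units.torsionOrder F) := ⟨Units.torsionOrder_ne_zero F⟩
  obtain ⟨i, -, h2⟩ := (h1.map_of_injective (algebraMap F Ω).injective).eq_pow_of_pow_eq_one h
  exact ⟨ζ ^ i, by rw [map_pow, h2]⟩

variable {K H : Type} [Field K] [NumberField K] [Field H] [NumberField H] [Algebra K H]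
  [IsAbelianGalois K H]

theorem tors_dvd : Units.torsionOrder K ∣ Units.torsionOrder H := by
  obtain ⟨ζ, h1, -⟩ := exists_prim K
  exact dvd_torsionOrder (Units.torsionOrder_ne_zero K)
    (h1.map_of_injective (algebraMap K H).injective)

theorem abel_pow {v : K} (hv : v ≠ 0) {j : ℕ}
    (hj : Units.torsionOrder H = Units.torsionOrder K * j) :
    AbelRoot K (Units.torsionOrder H) (algebraMap K H (v ^ j)) := by
  intro β hβ
  let Ω := AlgebraicClosure H
  let ρ : (Ω ≃ₐ[K] Ω) →* (H ≃ₐ[K] H) := AlgEquiv.restrictNormalHom H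
  have hρ : ∀ (s : Ω ≃ₐ[K] Ω) (x : H), s (algebraMap H Ω x) = algebraMap H Ω (ρ s x) := fun s x =>
    (AlgEquiv.restrictNormal_commutes s H x).symm
  have hL : ∀ (s t : Ω ≃ₐ[K] Ω) (x : H), s (t (algebraMap H Ω x)) = t (s (algebraMap H Ω x)) :=
    fun s t x => by
      rw [hρ, hρ, hρ, hρ, ← AlgEquiv.mul_apply, ← AlgEquiv.mul_apply, mul_comm' (ρ s)]
  obtain ⟨γ, hγ⟩ := IsAlgClosed.exists_pow_nat_eq (algebraMap K Ω v) (Units.torsionOrder_pos K)
  have hv' : algebraMap K Ω v ≠ 0 := by simpa using hv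
  have hγ0 : γ ≠ 0 := fun h => hv' (by rw [← hγ, h, zero_pow (Units.torsionOrder_ne_zero K)])
  obtain ⟨y, hy⟩ := root_mem H (x := β / γ) (by
    rw [div_pow, hβ, hj, pow_mul, hγ, ← IsScalarTower.algebraMap_apply, map_pow,
      div_self (pow_ne_zero _ hv')])
  have hd : ∀ s : Ω ≃ₐ[K] Ω, ∃ d : K, s γ = algebraMap K Ω d * γ := fun s => by
    obtain ⟨d, hd⟩ := root_mem K (x := s γ / γ) (by
      rw [div_pow, ← map_pow, hγ, s.commutes, div_self hv'])
    exact ⟨d, by rw [hd, div_mul_cancel₀ _ hγ0]⟩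
  refine abelian_of_comm β hL fun s t => ?_
  obtain ⟨d, h1⟩ := hd s
  obtain ⟨e, h2⟩ := hd t
  have h3 : β = algebraMap H Ω y * γ := by rw [hy, div_mul_cancel₀ _ hγ0]
  rw [h3, map_mul, map_mul, map_mul, map_mul, hL, h1, h2, map_mul, map_mul, h1, h2, s.commutes,
    t.commutes, mul_left_comm (algebraMap K Ω e)]

theorem other (hK : Units.rank K = 1) (p : InfinitePlace K) :
    ∃ q, q ≠ p ∧ ∀ w, w ≠ p ↔ w = q := by
  have h1 : Fintype.card {w // ¬ w = p} = 1 := by
    rw [Fintype.card_subtype_compl, Fintype.card_subtype_eq]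
    exact hK
  obtain ⟨q, hq⟩ := Fintype.card_eq_one_iff.1 h1
  exact ⟨q, q.2, fun w => ⟨fun h => congrArg Subtype.val (hq ⟨w, h⟩), fun h => h ▸ q.2⟩⟩

theorem exists_unit (hK : Units.rank K = 1) (p : InfinitePlace K) :
    ∃ u : (𝓞 K)ˣ, p.mult * Real.log (p u) = Units.regulator K := by
  obtain ⟨q, h1, h2⟩ := other hK p
  have : Unique {w // w ≠ q} := ⟨⟨⟨p, h1.symm⟩⟩, fun w => Subtype.ext (by
    by_contra h
    exact w.2 ((h2 _).1 h))⟩
  have h3 : (default : {w // w ≠ q}) = ⟨p, h1.symm⟩ := Subsingleton.elim _ _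
  have e : {w // w ≠ q} ≃ Fin (Units.rank K) := Fintype.equivFinOfCardEq (by simp [hK])
  rw [Units.regulator_eq_det K q e, Matrix.det_unique, Matrix.of_apply, h3]
  rcases abs_choice (p.mult * Real.log (p (Units.fundSystem K (e ⟨p, h1.symm⟩) : K))) with h | h
  · exact ⟨_, h.symm⟩
  · refine ⟨(Units.fundSystem K (e ⟨p, h1.symm⟩))⁻¹, ?_⟩
    rw [h, ← zpow_neg_one, Units.coe_zpow, zpow_neg_one, map_inv₀, Real.log_inv, mul_neg]

theorem q1_of_wray (hK : Units.rank K = 1) {S : Finset (Pr K)} {N : ℕ} (hU : UnrO H S)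
    (hR : WRay S N (fr K H)) (P : InfinitePlace H) (hP : P.IsUnramified K) : Q1 K S P := by
  obtain ⟨m, hm, hG⟩ := pz_const hU hR
  choose G h1 h2 h3 h4 using hG
  obtain ⟨u, hu⟩ := exists_unit hK (P.comap (algebraMap K H))
  obtain ⟨j, hj⟩ := tors_dvd (K := K) (H := H)
  obtain ⟨q, -, hq⟩ := other hK (P.comap (algebraMap K H))
  have h0 : ((u : K) ^ m) ≠ 0 := pow_ne_zero _ (Units.coe_ne_zero u)
  have hI : IsU (algebraMap K H (((u : K) ^ m) ^ j)) := isU_iff.2
    ⟨Units.map (algebraMap (𝓞 K) (𝓞 H)).toMonoidHom ((u ^ m) ^ j), by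
      simp [← IsScalarTower.algebraMap_apply]⟩
  have hF := finitePlace_eq_one hI
  refine ⟨fun g s => s ^ 1 * G g s, algebraMap K H (((u : K) ^ m) ^ j), fun g =>
    ⟨fun s hs => (analyticAt_id.pow 1).meromorphicAt.mul (h1 g s hs),
      (analyticAt_id.pow 1).mul (h2 g), fun s hs => by rw [h4 g s hs, hK]⟩,
    ⟨hI.1, fun Q _ => hF _, fun h => ⟨hF, fun w _ => ?_⟩, fun _ => ⟨fun w w' hw hw' => ?_,
      fun Q Q' _ _ => by rw [hF, hF]⟩⟩, fun g => ?_, abel_pow h0 hj⟩
  · rw [hm (by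
      rintro rfl
      rw [Units.rank] at hK
      rw [Finset.card_empty] at h
      omega)]
    simp
  · have h5 := ((hq _).1 hw).trans ((hq _).1 hw').symm
    obtain ⟨g, rfl⟩ := InfinitePlace.exists_smul_eq_of_comap_eq h5
    rw [← InfinitePlace.comap_apply, ← InfinitePlace.comap_apply, ← h5, InfinitePlace.mult,
      InfinitePlace.mult]
    simp only [InfinitePlace.isReal_smul_iff]
  · have hw : (Units.torsionOrder K : ℂ) ≠ 0 := Nat.cast_ne_zero.2 (Units.torsionOrder_ne_zero K)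
    rw [deriv_one (h2 g), h3, g.commutes, ← InfinitePlace.comap_apply, ← hP.eq, map_pow,
      map_pow, Real.log_pow, Real.log_pow, Real.log_pow, ← hu, hj]
    push_cast
    field_simp

end Pool.Agent.Stark.UR
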